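import Mathlib
import Pool.Agent.H166R2.CritPMData

set_option autoImplicit false

namespace Pool.Agent.H166R2.CritPM

open SimpleGraph

/-- The index of the edge `x y` (starting with `1`), and `0` if `x` and `y` are not adjacent. -/
def eix (x y : ℕ) : ℕ := (EI >>> (8 * (128 * x + y))) % 256

theorem symm_all : (List.range 110).all (fun x => (List.range 110).all
    (fun y => eix x y == eix y x)) = true := by
  decide +kernel

theorem irrefl_all : (List.range 110).all (fun x => eix x x == 0) = true := by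
  decide +kernel

theorem ends_all : (List.range 110).all (fun x => (List.range 110).all (fun y => eix x y == 0 ||
    ENDS.getD (eix x y - 1) (0, 0) == (min x y, max x y))) = true := by
  decide +kernel

theorem inc_all : (List.range 110).all (fun x => (List.range 110).all (fun y => eix x y == 0 ||
    (INC.getD x []).contains (eix x y))) = true := by
  decide +kernel

theorem idx_all : (List.range 110).all (fun x => (List.range 110).all
    (fun y => decide (eix x y ≤ 157))) = true := by
  decide +kernel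

theorem range_all₂ {n : ℕ} {f : ℕ → ℕ → Bool}
    (h : (List.range n).all (fun x => (List.range n).all (fun y => f x y)) = true)
    {x y : ℕ} (hx : x < n) (hy : y < n) : f x y = true := by
  rw [List.all_eq_true] at h
  have h2 := h x (List.mem_range.2 hx)
  rw [List.all_eq_true] at h2
  exact h2 y (List.mem_range.2 hy)

theorem eix_symm {x y : ℕ} (hx : x < 110) (hy : y < 110) : eix x y = eix y x := by
  have := range_all₂ symm_all hx hy
  simpa using this

theorem eix_self {x : ℕ} (hx : x < 110) : eix x x = 0 := by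
  have h := irrefl_all
  rw [List.all_eq_true] at h
  simpa using h x (List.mem_range.2 hx)

/-- The graph. -/
def G : SimpleGraph (Fin 110) where
  Adj x y := eix x y ≠ 0
  symm := ⟨fun x y h => by rwa [eix_symm y.2 x.2]⟩
  loopless := ⟨fun x h => h (eix_self x.2)⟩

theorem adj_iff (x y : Fin 110) : G.Adj x y ↔ eix x y ≠ 0 := Iff.rfl

instance : DecidableRel G.Adj := fun x y => inferInstanceAs (Decidable (eix x y ≠ 0))

theorem eix_inj {x y x' y' : Fin 110} (h : eix x y ≠ 0) (h' : eix x y = eix x' y') :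
    s(x, y) = s(x', y') := by
  have h1 := range_all₂ ends_all x.2 y.2
  have h2 := range_all₂ ends_all x'.2 y'.2
  have e1 : (eix x y == 0) = false := by simpa using h
  have e2 : (eix x' y' == 0) = false := by simpa [← h'] using h
  rw [e1, Bool.false_or, beq_iff_eq] at h1
  rw [e2, Bool.false_or, beq_iff_eq, ← h', h1, Prod.mk.injEq] at h2
  obtain ⟨h3, h4⟩ := h2
  rw [Sym2.eq_iff]
  have : ((x : ℕ) = x' ∧ (y : ℕ) = y') ∨ ((x : ℕ) = y' ∧ (y : ℕ) = x') := by omega
  rcases this with ⟨a, b⟩ | ⟨a, b⟩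
  · exact Or.inl ⟨Fin.ext a, Fin.ext b⟩
  · exact Or.inr ⟨Fin.ext a, Fin.ext b⟩

theorem deg_all : ∀ x : Fin 110, (Finset.univ.filter (fun w => G.Adj x w)).card ≤ 3 := by
  decide +kernel

theorem deg_zero : (Finset.univ.filter (fun w => G.Adj 0 w)).card = 3 := by
  decide +kernel

theorem maxDegree_eq : G.maxDegree = 3 := by
  apply le_antisymm
  · apply maxDegree_le_of_forall_degree_le
    intro x
    rw [← card_neighborFinset_eq_degree, neighborFinset_eq_filter]
    exact deg_all x
  · have h := G.degree_le_maxDegree 0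
    rw [← card_neighborFinset_eq_degree, neighborFinset_eq_filter, deg_zero] at h
    exact h

/-! ### Connectedness -/

def par (x : ℕ) : ℕ := (PAR >>> (8 * x)) % 256

theorem par_all : (List.range 110).all (fun x => decide (par x < 110) &&
    ((x == 0 && par x == 0) || eix x (par x) != 0) && (par^[11] x == 0)) = true := by
  decide +kernel

theorem connected : G.Connected := by
  have hp : ∀ x : Fin 110, ∃ h : par x < 110, G.Reachable x ⟨par x, h⟩ := by
    intro x
    have h := par_all
    rw [List.all_eq_true] at h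
    have h2 := h x (List.mem_range.2 x.2)
    rw [Bool.and_eq_true, Bool.and_eq_true, decide_eq_true_eq] at h2
    obtain ⟨⟨h3, h4⟩, -⟩ := h2
    refine ⟨h3, ?_⟩
    rw [Bool.or_eq_true] at h4
    rcases h4 with h4 | h4
    · rw [Bool.and_eq_true, beq_iff_eq, beq_iff_eq] at h4
      have : x = ⟨par x, h3⟩ := Fin.ext (h4.1.trans h4.2.symm)
      rw [← this]
    · have : G.Adj x ⟨par x, h3⟩ := by
        rw [adj_iff]
        simpa using h4
      exact this.reachable
  have hit : ∀ (k : ℕ) (x : Fin 110), ∃ h : par^[k] x < 110, G.Reachable x ⟨par^[k] x, h⟩ := by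
    intro k
    induction k with
    | zero => intro x; exact ⟨x.2, Reachable.refl _⟩
    | succ k ih =>
      intro x
      obtain ⟨h1, h2⟩ := hp x
      obtain ⟨h3, h4⟩ := ih ⟨par x, h1⟩
      exact ⟨h3, h2.trans h4⟩
  have h0 : ∀ x : Fin 110, G.Reachable x 0 := by
    intro x
    obtain ⟨h1, h2⟩ := hit 11 x
    have h := par_all
    rw [List.all_eq_true] at h
    have h3 := h x (List.mem_range.2 x.2)
    rw [Bool.and_eq_true, beq_iff_eq] at h3
    have : (⟨par^[11] x, h1⟩ : Fin 110) = 0 := Fin.ext h3.2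
    rwa [this] at h2
  exact ⟨fun x y => (h0 x).trans (h0 y).symm⟩

/-! ### The graph is not `3`-edge-colourable -/

/-- Search for a completion of a partial colouring; `true` means that there is none. -/
def srch : List (ℕ × ℕ) → ℕ → ℕ → ℕ → Bool
  | [], _, _, _ => false
  | p :: t, A, B, C =>
    ((A.testBit p.1 || A.testBit p.2) || srch t (A ||| 2 ^ p.1 ||| 2 ^ p.2) B C) &&
    ((B.testBit p.1 || B.testBit p.2) || srch t A (B ||| 2 ^ p.1 ||| 2 ^ p.2) C) &&
    ((C.testBit p.1 || C.testBit p.2) || srch t A B (C ||| 2 ^ p.1 ||| 2 ^ p.2))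

/-- Two pairs with a common entry. -/
def Share (p q : ℕ × ℕ) : Prop := p.1 = q.1 ∨ p.1 = q.2 ∨ p.2 = q.1 ∨ p.2 = q.2

theorem mask_step (col : ℕ × ℕ → Fin 3) (p : ℕ × ℕ) (t : List (ℕ × ℕ)) (A : ℕ) (c : Fin 3)
    (hc : col p = c)
    (hp : ∀ q ∈ t, Share p q → col p ≠ col q)
    (hA : ∀ q ∈ p :: t, A.testBit q.1 = true ∨ A.testBit q.2 = true → col q ≠ c) :
    ∀ q ∈ t, (A ||| 2 ^ p.1 ||| 2 ^ p.2).testBit q.1 = true ∨
      (A ||| 2 ^ p.1 ||| 2 ^ p.2).testBit q.2 = true → col q ≠ c := by
  intro q hq h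
  have hne : Share p q → col q ≠ c := fun hs => by
    rw [← hc]
    exact (hp q hq hs).symm
  simp only [Nat.testBit_or, Nat.testBit_two_pow, Bool.or_eq_true, decide_eq_true_eq] at h
  rcases h with (h | h) | h
  · rcases h with h | h
    · exact hA q (List.mem_cons_of_mem _ hq) (Or.inl h)
    · exact hne (Or.inl h)
  · exact hne (Or.inr (Or.inr (Or.inl h)))
  · rcases h with (h | h) | h
    · exact hA q (List.mem_cons_of_mem _ hq) (Or.inr h)
    · exact hne (Or.inr (Or.inl h))
    · exact hne (Or.inr (Or.inr (Or.inr h)))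

theorem srch_sound (col : ℕ × ℕ → Fin 3) : ∀ (t : List (ℕ × ℕ)) (A B C : ℕ),
    t.Pairwise (fun p q => Share p q → col p ≠ col q) →
    (∀ q ∈ t, A.testBit q.1 = true ∨ A.testBit q.2 = true → col q ≠ 0) →
    (∀ q ∈ t, B.testBit q.1 = true ∨ B.testBit q.2 = true → col q ≠ 1) →
    (∀ q ∈ t, C.testBit q.1 = true ∨ C.testBit q.2 = true → col q ≠ 2) →
    srch t A B C = false := by
  intro t
  induction t with
  | nil => intros; rfl
  | cons p t ih =>
    intro A B C ht hA hB hC
    rw [List.pairwise_cons] at ht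
    obtain ⟨hp, ht⟩ := ht
    rw [srch]
    have tl : ∀ (X : ℕ) (c : Fin 3), (∀ q ∈ p :: t, X.testBit q.1 = true ∨ X.testBit q.2 = true →
        col q ≠ c) → ∀ q ∈ t, X.testBit q.1 = true ∨ X.testBit q.2 = true → col q ≠ c :=
      fun X c h q hq => h q (List.mem_cons_of_mem _ hq)
    have hd : ∀ (X : ℕ) (c : Fin 3), col p = c → (∀ q ∈ p :: t, X.testBit q.1 = true ∨
        X.testBit q.2 = true → col q ≠ c) → (X.testBit p.1 || X.testBit p.2) = false := by
      intro X c hc h
      by_contra hcon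
      rw [Bool.not_eq_false, Bool.or_eq_true] at hcon
      exact h p List.mem_cons_self hcon hc
    have : col p = 0 ∨ col p = 1 ∨ col p = 2 := by
      generalize col p = z
      revert z
      decide
    rcases this with h | h | h
    · rw [hd A 0 h hA, ih _ B C ht (mask_step col p t A 0 h hp hA) (tl B 1 hB) (tl C 2 hC)]
      simp
    · rw [hd B 1 h hB, ih A _ C ht (tl A 0 hA) (mask_step col p t B 1 h hp hB) (tl C 2 hC)]
      simp
    · rw [hd C 2 h hC, ih A B _ ht (tl A 0 hA) (tl B 1 hB) (mask_step col p t C 2 h hp hC)]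
      simp

/-- The mask of the colour `c` after the first two edges get the colours `c0` and `c1`. -/
def msk (p q : ℕ × ℕ) (c0 c1 c : ℕ) : ℕ :=
  (if c0 = c then 2 ^ p.1 ||| 2 ^ p.2 else 0) ||| (if c1 = c then 2 ^ q.1 ||| 2 ^ q.2 else 0)

/-- The check for one fragment: the first two edges cannot get different colours. -/
def chk : List (ℕ × ℕ) → Bool
  | p :: q :: t => [(0, 1), (0, 2), (1, 0), (1, 2), (2, 0), (2, 1)].all (fun (c : ℕ × ℕ) =>
      srch t (msk p q c.1 c.2 0) (msk p q c.1 c.2 1) (msk p q c.1 c.2 2))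
  | _ => false

theorem chk_all : FR.all chk = true := by
  decide +kernel

theorem fr_edge : FR.all (fun L => L.all (fun p => decide (p.1 < 110) && decide (p.2 < 110) &&
    eix p.1 p.2 != 0) && decide (L.map (fun p => eix p.1 p.2)).Nodup) = true := by
  decide +kernel

theorem msk_bit (p q : ℕ × ℕ) (c0 c1 c w : ℕ) (h : (msk p q c0 c1 c).testBit w = true) :
    (c0 = c ∧ (p.1 = w ∨ p.2 = w)) ∨ (c1 = c ∧ (q.1 = w ∨ q.2 = w)) := by
  unfold msk at h
  rw [Nat.testBit_or, Bool.or_eq_true] at h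
  rcases h with h | h
  · left
    split_ifs at h with h1
    · simp only [Nat.testBit_or, Nat.testBit_two_pow, Bool.or_eq_true, decide_eq_true_eq] at h
      exact ⟨h1, h⟩
    · simp at h
  · right
    split_ifs at h with h1
    · simp only [Nat.testBit_or, Nat.testBit_two_pow, Bool.or_eq_true, decide_eq_true_eq] at h
      exact ⟨h1, h⟩
    · simp at h

theorem chk_sound (col : ℕ × ℕ → Fin 3) (p q : ℕ × ℕ) (t : List (ℕ × ℕ))
    (h : (p :: q :: t).Pairwise (fun p q => Share p q → col p ≠ col q))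
    (hc : chk (p :: q :: t) = true) : col p = col q := by
  by_contra hne
  rw [List.pairwise_cons, List.pairwise_cons] at h
  obtain ⟨hp, hq, ht⟩ := h
  unfold chk at hc
  rw [List.all_eq_true] at hc
  have key := hc ((col p : ℕ), (col q : ℕ)) (by
    generalize col p = a at hne ⊢
    generalize col q = b at hne ⊢
    revert a b
    decide)
  have hm : ∀ c : Fin 3, ∀ r ∈ t, (msk p q (col p) (col q) c).testBit r.1 = true ∨
      (msk p q (col p) (col q) c).testBit r.2 = true → col r ≠ c := by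
    intro c r hr hb
    have h1 : Share p r → col p = c → col r ≠ c := fun hs he => by
      rw [← he]
      exact (hp r (List.mem_cons_of_mem _ hr) hs).symm
    have h2 : Share q r → col q = c → col r ≠ c := fun hs he => by
      rw [← he]
      exact (hq r hr hs).symm
    rcases hb with hb | hb
    · rcases msk_bit _ _ _ _ _ _ hb with ⟨h3, h4⟩ | ⟨h3, h4⟩
      · refine h1 ?_ (Fin.ext h3)
        rcases h4 with h4 | h4
        · exact Or.inl h4
        · exact Or.inr (Or.inr (Or.inl h4))
      · refine h2 ?_ (Fin.ext h3)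
        rcases h4 with h4 | h4
        · exact Or.inl h4
        · exact Or.inr (Or.inr (Or.inl h4))
    · rcases msk_bit _ _ _ _ _ _ hb with ⟨h3, h4⟩ | ⟨h3, h4⟩
      · refine h1 ?_ (Fin.ext h3)
        rcases h4 with h4 | h4
        · exact Or.inr (Or.inl h4)
        · exact Or.inr (Or.inr (Or.inr h4))
      · refine h2 ?_ (Fin.ext h3)
        rcases h4 with h4 | h4
        · exact Or.inr (Or.inl h4)
        · exact Or.inr (Or.inr (Or.inr h4))
  have := srch_sound col t _ _ _ ht (hm 0) (hm 1) (hm 2)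
  simp only [Fin.val_zero, Fin.val_one, Fin.val_two] at this
  rw [this] at key
  cases key

theorem mem_edge (x y : Fin 110) (h : eix x y ≠ 0) : s(x, y) ∈ G.edgeSet := by
  rw [mem_edgeSet]
  exact h

/-- The colour of a pair. -/
noncomputable def colp (c : G.edgeSet → Fin 3) (p : ℕ × ℕ) : Fin 3 :=
  if h : p.1 < 110 ∧ p.2 < 110 ∧ eix p.1 p.2 ≠ 0 then
    c ⟨s(⟨p.1, h.1⟩, ⟨p.2, h.2.1⟩), mem_edge _ _ h.2.2⟩ else 0

/-- The pair is an edge of the graph. -/
def IsE (p : ℕ × ℕ) : Prop := p.1 < 110 ∧ p.2 < 110 ∧ eix p.1 p.2 ≠ 0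

theorem colp_ne (c : G.edgeSet → Fin 3)
    (hc : ∀ e f : G.edgeSet, e ≠ f → (∃ v, v ∈ e.1 ∧ v ∈ f.1) → c e ≠ c f)
    (p q : ℕ × ℕ) (hp : IsE p) (hq : IsE q) (hpq : eix p.1 p.2 ≠ eix q.1 q.2)
    (hs : Share p q) : colp c p ≠ colp c q := by
  have hp' : p.1 < 110 ∧ p.2 < 110 ∧ eix p.1 p.2 ≠ 0 := hp
  have hq' : q.1 < 110 ∧ q.2 < 110 ∧ eix q.1 q.2 ≠ 0 := hq
  unfold colp
  rw [dif_pos hp', dif_pos hq']
  apply hc
  · intro he
    rw [Subtype.mk.injEq, Sym2.eq_iff] at he
    rcases he with ⟨h1, h2⟩ | ⟨h1, h2⟩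
    · rw [Fin.mk.injEq] at h1 h2
      apply hpq
      rw [h1, h2]
    · rw [Fin.mk.injEq] at h1 h2
      apply hpq
      rw [h1, h2]
      exact eix_symm hq.2.1 hq.1
  · rcases hs with h | h | h | h
    · exact ⟨⟨p.1, hp.1⟩, Sym2.mem_mk_left _ _, by
        rw [show (⟨p.1, hp.1⟩ : Fin 110) = ⟨q.1, hq.1⟩ from Fin.ext h]
        exact Sym2.mem_mk_left _ _⟩
    · exact ⟨⟨p.1, hp.1⟩, Sym2.mem_mk_left _ _, by
        rw [show (⟨p.1, hp.1⟩ : Fin 110) = ⟨q.2, hq.2.1⟩ from Fin.ext h]
        exact Sym2.mem_mk_right _ _⟩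
    · exact ⟨⟨p.2, hp.2.1⟩, Sym2.mem_mk_right _ _, by
        rw [show (⟨p.2, hp.2.1⟩ : Fin 110) = ⟨q.1, hq.1⟩ from Fin.ext h]
        exact Sym2.mem_mk_left _ _⟩
    · exact ⟨⟨p.2, hp.2.1⟩, Sym2.mem_mk_right _ _, by
        rw [show (⟨p.2, hp.2.1⟩ : Fin 110) = ⟨q.2, hq.2.1⟩ from Fin.ext h]
        exact Sym2.mem_mk_right _ _⟩

theorem fr_eq (c : G.edgeSet → Fin 3)
    (hc : ∀ e f : G.edgeSet, e ≠ f → (∃ v, v ∈ e.1 ∧ v ∈ f.1) → c e ≠ c f)
    (L : List (ℕ × ℕ)) (hL : L ∈ FR) (p q : ℕ × ℕ) (t : List (ℕ × ℕ)) (hpq : L = p :: q :: t) :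
    colp c p = colp c q := by
  have h1 := fr_edge
  rw [List.all_eq_true] at h1
  have h2 := h1 L hL
  rw [Bool.and_eq_true, List.all_eq_true, decide_eq_true_eq] at h2
  obtain ⟨h3, h4⟩ := h2
  have hE : ∀ p ∈ L, IsE p := by
    intro p hp
    have := h3 p hp
    rw [Bool.and_eq_true, Bool.and_eq_true, decide_eq_true_eq, decide_eq_true_eq] at this
    exact ⟨this.1.1, this.1.2, by simpa using this.2⟩
  have h5 := chk_all
  rw [List.all_eq_true] at h5
  have h6 := h5 L hL
  rw [hpq] at h6
  refine chk_sound (colp c) p q t ?_ h6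
  rw [← hpq]
  have h7 : L.Pairwise (fun p q => eix p.1 p.2 ≠ eix q.1 q.2) := by
    rw [List.Nodup, List.pairwise_map] at h4
    exact h4
  refine List.Pairwise.imp_of_mem ?_ h7
  intro a b ha hb hab hs
  exact colp_ne c hc a b (hE a ha) (hE b hb) hab hs

theorem k4' : ∀ a b x0 x1 x2 x3 x4 : Fin 3, (a != b && a != x0 && a != x1 && x0 != x1 &&
    b != x2 && b != x3 && x2 != x3 && x0 != x2 && x0 != x4 && x2 != x4 && x1 != x3 && x1 != x4 &&
    x3 != x4) = false := by
  decide +kernel

theorem k4 (a b x0 x1 x2 x3 x4 : Fin 3) (h1 : a ≠ b) (h2 : a ≠ x0) (h3 : a ≠ x1) (h4 : x0 ≠ x1)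
    (h5 : b ≠ x2) (h6 : b ≠ x3) (h7 : x2 ≠ x3) (h8 : x0 ≠ x2) (h9 : x0 ≠ x4) (h10 : x2 ≠ x4)
    (h11 : x1 ≠ x3) (h12 : x1 ≠ x4) (h13 : x3 ≠ x4) : False := by
  have h := k4' a b x0 x1 x2 x3 x4
  simp [bne_iff_ne, h1, h2, h3, h4, h5, h6, h7, h8, h9, h10, h11, h12, h13] at h

theorem isE_all : ([(0, 4), (1, 4), (0, 5), (2, 9), (0, 26), (3, 30), (1, 47), (2, 51), (1, 68),
    (3, 72), (2, 89), (3, 93)] : List (ℕ × ℕ)).all (fun p => decide (p.1 < 110) &&
      decide (p.2 < 110) && eix p.1 p.2 != 0) = true := by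
  decide +kernel

theorem not_colorable (c : G.edgeSet → Fin 3)
    (hc : ∀ e f : G.edgeSet, e ≠ f → (∃ v, v ∈ e.1 ∧ v ∈ f.1) → c e ≠ c f) : False := by
  have hE : ∀ p ∈ ([(0, 4), (1, 4), (0, 5), (2, 9), (0, 26), (3, 30), (1, 47), (2, 51), (1, 68),
      (3, 72), (2, 89), (3, 93)] : List (ℕ × ℕ)), IsE p := by
    intro p hp
    have h := isE_all
    rw [List.all_eq_true] at h
    have := h p hp
    rw [Bool.and_eq_true, Bool.and_eq_true, decide_eq_true_eq, decide_eq_true_eq] at this
    exact ⟨this.1.1, this.1.2, by simpa using this.2⟩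
  have f0 := fr_eq c hc (FR.getD 0 []) (by decide +kernel) (0, 5) (2, 9)
    ((FR.getD 0 []).drop 2) (by decide +kernel)
  have f1 := fr_eq c hc (FR.getD 1 []) (by decide +kernel) (0, 26) (3, 30)
    ((FR.getD 1 []).drop 2) (by decide +kernel)
  have f2 := fr_eq c hc (FR.getD 2 []) (by decide +kernel) (1, 47) (2, 51)
    ((FR.getD 2 []).drop 2) (by decide +kernel)
  have f3 := fr_eq c hc (FR.getD 3 []) (by decide +kernel) (1, 68) (3, 72)
    ((FR.getD 3 []).drop 2) (by decide +kernel)
  have f4 := fr_eq c hc (FR.getD 4 []) (by decide +kernel) (2, 89) (3, 93)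
    ((FR.getD 4 []).drop 2) (by decide +kernel)
  have ne : ∀ p q : ℕ × ℕ, IsE p → IsE q → eix p.1 p.2 ≠ eix q.1 q.2 → Share p q →
      colp c p ≠ colp c q := fun p q => colp_ne c hc p q
  have n1 := ne (0, 4) (1, 4) (hE _ (by simp)) (hE _ (by simp)) (by decide +kernel)
    (by simp [Share])
  have n2 := ne (0, 4) (0, 5) (hE _ (by simp)) (hE _ (by simp)) (by decide +kernel)
    (by simp [Share])
  have n3 := ne (0, 4) (0, 26) (hE _ (by simp)) (hE _ (by simp)) (by decide +kernel)
    (by simp [Share])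
  have n4 := ne (0, 5) (0, 26) (hE _ (by simp)) (hE _ (by simp)) (by decide +kernel)
    (by simp [Share])
  have n5 := ne (1, 4) (1, 47) (hE _ (by simp)) (hE _ (by simp)) (by decide +kernel)
    (by simp [Share])
  have n6 := ne (1, 4) (1, 68) (hE _ (by simp)) (hE _ (by simp)) (by decide +kernel)
    (by simp [Share])
  have n7 := ne (1, 47) (1, 68) (hE _ (by simp)) (hE _ (by simp)) (by decide +kernel)
    (by simp [Share])
  have n8 := ne (2, 9) (2, 51) (hE _ (by simp)) (hE _ (by simp)) (by decide +kernel)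
    (by simp [Share])
  have n9 := ne (2, 9) (2, 89) (hE _ (by simp)) (hE _ (by simp)) (by decide +kernel)
    (by simp [Share])
  have n10 := ne (2, 51) (2, 89) (hE _ (by simp)) (hE _ (by simp)) (by decide +kernel)
    (by simp [Share])
  have n11 := ne (3, 30) (3, 72) (hE _ (by simp)) (hE _ (by simp)) (by decide +kernel)
    (by simp [Share])
  have n12 := ne (3, 30) (3, 93) (hE _ (by simp)) (hE _ (by simp)) (by decide +kernel)
    (by simp [Share])
  have n13 := ne (3, 72) (3, 93) (hE _ (by simp)) (hE _ (by simp)) (by decide +kernel)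
    (by simp [Share])
  rw [← f0] at n8 n9
  rw [← f1] at n11 n12
  rw [← f2] at n8 n10
  rw [← f3] at n11 n13
  rw [← f4] at n12 n13
  exact k4 _ _ _ _ _ _ _ n1 n2 n3 n4 n5 n6 n7 n8 n9 n10 n11 n12 n13

/-! ### Deleting an edge makes the graph `3`-edge-colourable -/

/-- The colour of the edge with index `i`. -/
def cc (C i : ℕ) : ℕ := ((C >>> (2 * i)) % 4) % 3

theorem crit_all : (List.range 157).all (fun k => INC.all (fun l => l.all (fun i => l.all (fun j =>
    i == j || i == k + 1 || j == k + 1 ||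
      cc (COL.getD k 0) i != cc (COL.getD k 0) j)))) = true := by
  decide +kernel

/-- The index of an unordered pair. -/
def eixS (f : Sym2 (Fin 110)) : ℕ :=
  Sym2.lift ⟨fun (x y : Fin 110) => eix x y, fun x y => eix_symm x.2 y.2⟩ f

theorem eixS_mk (x y : Fin 110) : eixS s(x, y) = eix x y := rfl

theorem critical (e : Sym2 (Fin 110)) (he : e ∈ G.edgeSet) :
    ∃ c : (G.deleteEdges {e}).edgeSet → Fin 3,
      ∀ a b : (G.deleteEdges {e}).edgeSet, a ≠ b → (∃ v, v ∈ a.1 ∧ v ∈ b.1) → c a ≠ c b := by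
  refine ⟨fun f => ⟨cc (COL.getD (eixS e - 1) 0) (eixS f.1), Nat.mod_lt _ (by norm_num)⟩, ?_⟩
  rintro ⟨a, ha⟩ ⟨b, hb⟩ hab ⟨v, hva, hvb⟩ heq
  rw [Fin.mk.injEq] at heq
  dsimp only at hva hvb heq
  obtain ⟨x, rfl⟩ := Sym2.mem_iff_exists.1 hva
  obtain ⟨y, rfl⟩ := Sym2.mem_iff_exists.1 hvb
  rw [edgeSet_deleteEdges] at ha hb
  obtain ⟨ha1, ha2⟩ := ha
  obtain ⟨hb1, hb2⟩ := hb
  rw [Set.mem_singleton_iff] at ha2 hb2
  have hva' : eix v x ≠ 0 := ha1
  have hvb' : eix v y ≠ 0 := hb1
  have hne : eix v x ≠ eix v y := fun h => hab (Subtype.ext (eix_inj hva' h))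
  induction e with
  | _ p q =>
  have hpq : eix p q ≠ 0 := he
  rw [eixS_mk, eixS_mk, eixS_mk] at heq
  have hk : eix p q ≤ 157 := by
    have := range_all₂ idx_all p.2 q.2
    simpa using this
  have h1 := crit_all
  rw [List.all_eq_true] at h1
  have h2 := h1 (eix p q - 1) (List.mem_range.2 (by omega))
  rw [List.all_eq_true] at h2
  have hx := range_all₂ inc_all v.2 x.2
  have hy := range_all₂ inc_all v.2 y.2
  have ex : (eix v x == 0) = false := by simpa using hva'
  have ey : (eix v y == 0) = false := by simpa using hvb'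
  rw [ex, Bool.false_or, List.contains_iff_mem] at hx
  rw [ey, Bool.false_or, List.contains_iff_mem] at hy
  have hmem : INC.getD v [] ∈ INC := by
    rw [List.getD_eq_getElem?_getD] at hx ⊢
    rcases hz : INC[(v : ℕ)]? with _ | l
    · rw [hz] at hx
      simp at hx
    · exact List.mem_of_getElem? hz
  have h3 := h2 _ hmem
  rw [List.all_eq_true] at h3
  have h4 := h3 _ hx
  rw [List.all_eq_true] at h4
  have h5 := h4 _ hy
  have e1 : eix p q - 1 + 1 = eix p q := by omega
  rw [e1, Bool.or_eq_true, Bool.or_eq_true, Bool.or_eq_true, beq_iff_eq, beq_iff_eq,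
    beq_iff_eq] at h5
  rcases h5 with ((h5 | h5) | h5) | h5
  · exact hne h5
  · exact ha2 (eix_inj hva' h5)
  · exact hb2 (eix_inj hvb' h5)
  · rw [heq] at h5
    simp at h5

/-! ### There is no perfect matching -/

/-- The component of a vertex after removal of `0, 1, 2, 3`. -/
def comp (v : ℕ) : ℕ := if v < 4 then 6 else if v = 4 then 5 else (v - 5) / 21

theorem comp_all : (List.range 110).all (fun x => (List.range 110).all (fun y => eix x y == 0 ||
    decide (x < 4) || decide (y < 4) || comp x == comp y)) = true := by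
  decide +kernel

theorem comp_card : ∀ i : Fin 6,
    Odd (Finset.univ.filter (fun v : Fin 110 => comp v = i)).card := by
  decide +kernel

theorem no_pm (M : G.Subgraph) (hM : M.IsPerfectMatching) : False := by
  classical
  rw [Subgraph.isPerfectMatching_iff] at hM
  choose m hm hu using hM
  have hadj : ∀ v, G.Adj v (m v) := fun v => (hm v).adj_sub
  have hinv : ∀ v, m (m v) = v := fun v => (hu (m v) v (hm v).symm).symm
  have key : ∀ i : Fin 6, ∃ s : Fin 110, (s : ℕ) < 4 ∧ comp (m s) = i := by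
    intro i
    by_contra hcon
    push Not at hcon
    let C := Finset.univ.filter (fun v : Fin 110 => comp v = i)
    have hC : ∀ v ∈ C, m v ∈ C := by
      intro v hv
      rw [Finset.mem_filter] at hv ⊢
      refine ⟨Finset.mem_univ _, ?_⟩
      have hv4 : ¬ (v : ℕ) < 4 := by
        intro h
        have h1 := hv.2
        unfold comp at h1
        rw [if_pos h] at h1
        have := i.2
        omega
      have hm4 : ¬ ((m v : Fin 110) : ℕ) < 4 := by
        intro h
        have := hcon (m v) h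
        rw [hinv] at this
        exact this hv.2
      have h2 := range_all₂ comp_all v.2 (m v).2
      have e0 : eix v (m v) ≠ 0 := hadj v
      have e1 : (eix v (m v) == 0) = false := by simpa using e0
      rw [e1] at h2
      simp only [hv4, hm4, decide_false, Bool.false_or, beq_iff_eq] at h2
      rw [← h2]
      exact hv.2
    have hprod : ∏ _v ∈ C, (-1 : ℤ) = 1 := by
      refine Finset.prod_involution (fun v _ => m v) ?_ ?_ ?_ ?_
      · intro v hv
        norm_num
      · intro v hv _ h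
        have := hadj v
        rw [h] at this
        exact G.loopless.irrefl _ this
      · intro v hv
        exact hC v hv
      · intro v hv
        exact hinv v
    rw [Finset.prod_const] at hprod
    have hodd : Odd C.card := comp_card i
    rw [hodd.neg_one_pow] at hprod
    norm_num at hprod
  choose s hs4 hs using key
  have hinj : Function.Injective (fun i : Fin 6 => (⟨(s i : ℕ), hs4 i⟩ : Fin 4)) := by
    intro i j hij
    rw [Fin.mk.injEq] at hij
    have : s i = s j := Fin.ext hij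
    apply Fin.ext
    rw [← hs i, ← hs j, this]
  have := Fintype.card_le_of_injective _ hinj
  simp at this

end Pool.Agent.H166R2.CritPM
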