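import Mathlib
import Pool.Agent.Helper201.DiracS

set_option autoImplicit false

namespace Pool.Agent.H166R2.DiracInf

open SimpleGraph

universe u

/-- Not `3`-colourable, even after deletion of the pair `a b`. -/
def NoCol {V : Type u} (G : SimpleGraph V) : Prop :=
  ∀ (a b : V) (f : V → Fin 3), ∃ x y, G.Adj x y ∧ s(x, y) ≠ s(a, b) ∧ f x = f y

/-- Deletion of any vertex gives a `3`-colourable graph. -/
def VCol {V : Type u} (G : SimpleGraph V) : Prop :=
  ∀ v, ∃ f : V → Fin 3, ∀ x y, x ≠ v → y ≠ v → G.Adj x y → f x ≠ f y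

/-- There is a graph of order `n` with both properties. -/
def Good (n : ℕ) : Prop := 0 < n ∧ ∃ G : SimpleGraph (Fin n), NoCol G ∧ VCol G

section Comp

variable {b : ℕ} {E : Type} (l r : E → Fin b) (X : E → Type) (F : ∀ e, SimpleGraph (X e))
  (w : ∀ e, X e) (c : ∀ e, X e → Fin 3)

/-- The vertices of the composition. -/
abbrev W : Type := Fin b ⊕ (Σ e, {x : X e // x ≠ w e})

/-- Adjacency in the composition. -/
inductive Rel : W (b := b) X w → W (b := b) X w → Prop
  | int (e : E) (x y : {x : X e // x ≠ w e}) (h : (F e).Adj x y) :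
      Rel (Sum.inr ⟨e, x⟩) (Sum.inr ⟨e, y⟩)
  | lx (e : E) (x : {x : X e // x ≠ w e}) (h : (F e).Adj (w e) x) (h' : c e x = 0) :
      Rel (Sum.inl (l e)) (Sum.inr ⟨e, x⟩)
  | xl (e : E) (x : {x : X e // x ≠ w e}) (h : (F e).Adj (w e) x) (h' : c e x = 0) :
      Rel (Sum.inr ⟨e, x⟩) (Sum.inl (l e))
  | rx (e : E) (x : {x : X e // x ≠ w e}) (h : (F e).Adj (w e) x) (h' : c e x ≠ 0) :
      Rel (Sum.inl (r e)) (Sum.inr ⟨e, x⟩)
  | xr (e : E) (x : {x : X e // x ≠ w e}) (h : (F e).Adj (w e) x) (h' : c e x ≠ 0) :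
      Rel (Sum.inr ⟨e, x⟩) (Sum.inl (r e))

/-- The composition. -/
def Comp : SimpleGraph (W (b := b) X w) where
  Adj := Rel l r X F w c
  symm := ⟨by
    intro x y h
    cases h with
    | int e x y h => exact Rel.int e y x h.symm
    | lx e x h h' => exact Rel.xl e x h h'
    | xl e x h h' => exact Rel.lx e x h h'
    | rx e x h h' => exact Rel.xr e x h h'
    | xr e x h h' => exact Rel.rx e x h h'⟩
  loopless := ⟨by
    intro x h
    cases h with
    | int e x y h => exact (F e).loopless.irrefl _ h⟩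

theorem comp_noCol (hB : ∀ φ : Fin b → Fin 3, ∃ e, φ (l e) = φ (r e))
    (hF : ∀ e, NoCol (F e)) : NoCol (Comp l r X F w c) := by
  classical
  intro a a' f
  by_contra hcon
  push Not at hcon
  obtain ⟨e, he⟩ := hB (fun i => f (Sum.inl i))
  let p : W (b := b) X w → X e := fun z => match z with
    | Sum.inl _ => w e
    | Sum.inr q => if h : q.1 = e then h ▸ q.2.1 else w e
  have hpr : ∀ x : {x : X e // x ≠ w e}, p (Sum.inr ⟨e, x⟩) = x := by
    intro x
    simp [p]
  have hpl : ∀ i, p (Sum.inl i) = w e := fun i => rfl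
  let g : X e → Fin 3 := fun x => if h : x = w e then f (Sum.inl (l e)) else
    f (Sum.inr ⟨e, x, h⟩)
  have hgw : g (w e) = f (Sum.inl (l e)) := by simp [g]
  have hgx : ∀ x : {x : X e // x ≠ w e}, g x = f (Sum.inr ⟨e, x⟩) := by
    intro x
    simp [g, x.2]
  have hpne : ∀ z z' : W (b := b) X w, s(p z, p z') ≠ s(p a, p a') → s(z, z') ≠ s(a, a') := by
    intro z z' h1 h2
    apply h1
    have := congrArg (Sym2.map p) h2
    simpa using this
  obtain ⟨x, y, hxy, hne, hg⟩ := hF e (p a) (p a') g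
  by_cases hx : x = w e
  · subst hx
    have hy : y ≠ w e := hxy.ne.symm
    by_cases hc : c e y = 0
    · refine hcon _ _ (Rel.lx e ⟨y, hy⟩ hxy hc) (hpne _ _ ?_) ?_
      · rw [hpr, hpl (l e)]
        exact hne
      · rw [← hgw, hg, ← hgx]
    · refine hcon _ _ (Rel.rx e ⟨y, hy⟩ hxy hc) (hpne _ _ ?_) ?_
      · rw [hpr, hpl (r e)]
        exact hne
      · have he' : f (Sum.inl (l e)) = f (Sum.inl (r e)) := he
        rw [← he', ← hgw, hg, ← hgx]
  · by_cases hy : y = w e
    · subst hy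
      have hxy' := hxy.symm
      by_cases hc : c e x = 0
      · refine hcon _ _ (Rel.xl e ⟨x, hx⟩ hxy' hc) (hpne _ _ ?_) ?_
        · rw [hpr, hpl (l e)]
          exact hne
        · rw [← hgw, ← hg, ← hgx]
      · refine hcon _ _ (Rel.xr e ⟨x, hx⟩ hxy' hc) (hpne _ _ ?_) ?_
        · rw [hpr, hpl (r e)]
          exact hne
        · have he' : f (Sum.inl (l e)) = f (Sum.inl (r e)) := he
          rw [← he', ← hgw, ← hg, ← hgx]
    · refine hcon _ _ (Rel.int e ⟨x, hx⟩ ⟨y, hy⟩ hxy) (hpne _ _ ?_) ?_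
      · rw [hpr, hpr]
        exact hne
      · rw [← hgx, ← hgx]
        exact hg

theorem comp_col (v : W (b := b) X w) (φ : Fin b → Fin 3) (g : ∀ e, X e → Fin 3)
    (h1 : ∀ e (x y : {x : X e // x ≠ w e}), (Sum.inr ⟨e, x⟩ : W (b := b) X w) ≠ v →
      (Sum.inr ⟨e, y⟩ : W (b := b) X w) ≠ v → (F e).Adj x y → g e x ≠ g e y)
    (h2 : ∀ e (x : {x : X e // x ≠ w e}), (Sum.inl (l e) : W (b := b) X w) ≠ v →
      (Sum.inr ⟨e, x⟩ : W (b := b) X w) ≠ v → (F e).Adj (w e) x → c e x = 0 → φ (l e) ≠ g e x)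
    (h3 : ∀ e (x : {x : X e // x ≠ w e}), (Sum.inl (r e) : W (b := b) X w) ≠ v →
      (Sum.inr ⟨e, x⟩ : W (b := b) X w) ≠ v → (F e).Adj (w e) x → c e x ≠ 0 → φ (r e) ≠ g e x) :
    ∃ f : W (b := b) X w → Fin 3, ∀ x y, x ≠ v → y ≠ v → (Comp l r X F w c).Adj x y →
      f x ≠ f y := by
  refine ⟨Sum.elim φ (fun q => g q.1 q.2), ?_⟩
  intro x y hx hy h
  cases h with
  | int e x y h => exact h1 e x y hx hy h
  | lx e x h h' => exact h2 e x hx hy h h'
  | xl e x h h' => exact (h2 e x hy hx h h').symm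
  | rx e x h h' => exact h3 e x hx hy h h'
  | xr e x h h' => exact (h3 e x hy hx h h').symm

theorem perm2 : ∀ x y s t : Fin 3, x ≠ y → s ≠ t →
    ∃ σ : Equiv.Perm (Fin 3), σ x = s ∧ σ y = t := by
  decide

theorem perm1 : ∀ x s : Fin 3, ∃ σ : Equiv.Perm (Fin 3), σ x = s := by
  decide

theorem comp_vCol (hB1 : ∀ φ : Fin b → Fin 3, ∃ e, φ (l e) = φ (r e))
    (hB2 : ∀ e, ∃ φ : Fin b → Fin 3, ∀ e', e' ≠ e → φ (l e') ≠ φ (r e'))
    (hB3 : ∀ i, ∃ e, l e = i ∨ r e = i)
    (hc : ∀ e x y, x ≠ w e → y ≠ w e → (F e).Adj x y → c e x ≠ c e y)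
    (hF : ∀ e, VCol (F e)) : VCol (Comp l r X F w c) := by
  classical
  -- colourings of the gadgets with different colours at the ends
  have hσ : ∀ (φ : Fin b → Fin 3) (e : E), φ (l e) ≠ φ (r e) → ∃ g : X e → Fin 3,
      (∀ x y, x ≠ w e → y ≠ w e → (F e).Adj x y → g x ≠ g y) ∧
      (∀ x, c e x = 0 → φ (l e) ≠ g x) ∧ (∀ x, c e x ≠ 0 → φ (r e) ≠ g x) := by
    intro φ e he
    obtain ⟨σ, h1, h0⟩ := perm2 1 0 (φ (l e)) (φ (r e)) (by decide) he
    refine ⟨fun x => σ (c e x), ?_, ?_, ?_⟩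
    · intro x y hx hy h he
      exact hc e x y hx hy h (σ.injective he)
    · intro x hx h
      dsimp only at h
      rw [hx, ← h1] at h
      exact absurd (σ.injective h) (by decide)
    · intro x hx h
      dsimp only at h
      rw [← h0] at h
      exact hx (σ.injective h).symm
  rintro (i | ⟨e0, x0⟩)
  · obtain ⟨e0, he0⟩ := hB3 i
    obtain ⟨φ, hφ⟩ := hB2 e0
    have heq : φ (l e0) = φ (r e0) := by
      obtain ⟨e, he⟩ := hB1 φ
      by_cases h : e = e0
      · rw [← h]; exact he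
      · exact absurd he (hφ e h)
    have key : ∃ g : X e0 → Fin 3, (∀ x y, x ≠ w e0 → y ≠ w e0 → (F e0).Adj x y → g x ≠ g y) ∧
        (∀ x, l e0 ≠ i → c e0 x = 0 → φ (l e0) ≠ g x) ∧
        (∀ x, r e0 ≠ i → c e0 x ≠ 0 → φ (r e0) ≠ g x) := by
      rcases he0 with h | h
      · obtain ⟨σ, hs⟩ := perm1 0 (φ (r e0))
        refine ⟨fun x => σ (c e0 x), ?_, ?_, ?_⟩
        · intro x y hx hy h he
          exact hc e0 x y hx hy h (σ.injective he)
        · intro x hl
          exact absurd h hl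
        · intro x _ hx h'
          dsimp only at h'
          rw [← hs] at h'
          exact hx (σ.injective h').symm
      · obtain ⟨σ, hs⟩ := perm1 1 (φ (l e0))
        refine ⟨fun x => σ (c e0 x), ?_, ?_, ?_⟩
        · intro x y hx hy h he
          exact hc e0 x y hx hy h (σ.injective he)
        · intro x _ hx h'
          dsimp only at h'
          rw [hx, ← hs] at h'
          exact absurd (σ.injective h') (by decide)
        · intro x hl
          exact absurd h hl
    obtain ⟨g0, g1, g2, g3⟩ := key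
    have hall : ∀ e : E, ∃ g : X e → Fin 3,
        (∀ x y, x ≠ w e → y ≠ w e → (F e).Adj x y → g x ≠ g y) ∧
        (∀ x, l e ≠ i → c e x = 0 → φ (l e) ≠ g x) ∧
        (∀ x, r e ≠ i → c e x ≠ 0 → φ (r e) ≠ g x) := by
      intro e
      by_cases h : e = e0
      · subst h
        exact ⟨g0, g1, g2, g3⟩
      · obtain ⟨g, k1, k2, k3⟩ := hσ φ e (hφ e h)
        exact ⟨g, k1, fun x _ => k2 x, fun x _ => k3 x⟩
    choose g k1 k2 k3 using hall
    refine comp_col l r X F w c _ φ g ?_ ?_ ?_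
    · intro e x y _ _ h
      exact k1 e x y x.2 y.2 h
    · intro e x hl _ _ hx
      exact k2 e x (fun h => hl (by rw [h])) hx
    · intro e x hl _ _ hx
      exact k3 e x (fun h => hl (by rw [h])) hx
  · obtain ⟨φ, hφ⟩ := hB2 e0
    have heq : φ (l e0) = φ (r e0) := by
      obtain ⟨e, he⟩ := hB1 φ
      by_cases h : e = e0
      · rw [← h]; exact he
      · exact absurd he (hφ e h)
    obtain ⟨g', hg'⟩ := hF e0 x0
    obtain ⟨σ, hs⟩ := perm1 (g' (w e0)) (φ (l e0))
    have hall : ∀ e : E, ∃ g : X e → Fin 3,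
        (∀ x y : {x : X e // x ≠ w e}, (Sum.inr ⟨e, x⟩ : W (b := b) X w) ≠ Sum.inr ⟨e0, x0⟩ →
          (Sum.inr ⟨e, y⟩ : W (b := b) X w) ≠ Sum.inr ⟨e0, x0⟩ → (F e).Adj x y →
          g x ≠ g y) ∧
        (∀ x : {x : X e // x ≠ w e}, (Sum.inr ⟨e, x⟩ : W (b := b) X w) ≠ Sum.inr ⟨e0, x0⟩ →
          (F e).Adj (w e) x → c e x = 0 → φ (l e) ≠ g x) ∧
        (∀ x : {x : X e // x ≠ w e}, (Sum.inr ⟨e, x⟩ : W (b := b) X w) ≠ Sum.inr ⟨e0, x0⟩ →
          (F e).Adj (w e) x → c e x ≠ 0 → φ (r e) ≠ g x) := by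
      intro e
      by_cases h : e = e0
      · subst h
        refine ⟨fun x => σ (g' x), ?_, ?_, ?_⟩
        · intro x y hx hy h he
          refine hg' x y ?_ ?_ h (σ.injective he)
          · intro h'
            exact hx (by rw [Subtype.ext h'])
          · intro h'
            exact hy (by rw [Subtype.ext h'])
        · intro x hx h _ h'
          dsimp only at h'
          rw [← hs] at h'
          refine hg' (w e) x x0.2.symm ?_ h (σ.injective h')
          intro h'
          exact hx (by rw [Subtype.ext h'])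
        · intro x hx h _ h'
          dsimp only at h'
          rw [← heq, ← hs] at h'
          refine hg' (w e) x x0.2.symm ?_ h (σ.injective h')
          intro h'
          exact hx (by rw [Subtype.ext h'])
      · obtain ⟨g, k1, k2, k3⟩ := hσ φ e (hφ e h)
        exact ⟨g, fun x y _ _ hxy => k1 x y x.2 y.2 hxy, fun x _ _ => k2 x, fun x _ _ => k3 x⟩
    choose g k1 k2 k3 using hall
    refine comp_col l r X F w c _ φ g ?_ ?_ ?_
    · intro e x y hx hy h
      exact k1 e x y hx hy h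
    · intro e x _ hx h h'
      exact k2 e x hx h h'
    · intro e x _ hx h h'
      exact k3 e x hx h h'

end Comp

theorem good_of_equiv {V : Type} [Fintype V] (G : SimpleGraph V) (h1 : NoCol G) (h2 : VCol G)
    (n : ℕ) (hn : Fintype.card V = n) (hpos : 0 < n) : Good n := by
  classical
  let φ : V ≃ Fin n := Fintype.equivFinOfCardEq hn
  refine ⟨hpos, G.map φ.toEmbedding, ?_, ?_⟩
  · intro a b f
    obtain ⟨x, y, hxy, hne, hf⟩ := h1 (φ.symm a) (φ.symm b) (fun x => f (φ x))
    refine ⟨φ x, φ y, ?_, ?_, hf⟩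
    · rw [SimpleGraph.map_adj]
      exact ⟨x, y, hxy, rfl, rfl⟩
    · intro h
      apply hne
      have := congrArg (Sym2.map φ.symm) h
      simpa using this
  · intro v
    obtain ⟨f, hf⟩ := h2 (φ.symm v)
    refine ⟨fun x => f (φ.symm x), ?_⟩
    intro x y hx hy h
    rw [SimpleGraph.map_adj] at h
    obtain ⟨x', y', h', rfl, rfl⟩ := h
    have hx' : x' ≠ φ.symm v := by
      rintro rfl
      exact hx (by simp)
    have hy' : y' ≠ φ.symm v := by
      rintro rfl
      exact hy (by simp)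
    simpa using hf x' y' hx' hy' h'

/-- Composition of graphs without critical edges along a critical base. -/
theorem good_comp {b m : ℕ} (hm : 0 < b) (l r : Fin m → Fin b)
    (hB1 : ∀ φ : Fin b → Fin 3, ∃ e, φ (l e) = φ (r e))
    (hB2 : ∀ e, ∃ φ : Fin b → Fin 3, ∀ e', e' ≠ e → φ (l e') ≠ φ (r e'))
    (hB3 : ∀ i, ∃ e, l e = i ∨ r e = i) (sz : Fin m → ℕ) (hsz : ∀ e, Good (sz e)) :
    Good (b + ∑ e, (sz e - 1)) := by
  classical
  have hpos : ∀ e, 0 < sz e := fun e => (hsz e).1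
  choose F hF1 hF2 using fun e => (hsz e).2
  let w : ∀ e, Fin (sz e) := fun e => ⟨0, hpos e⟩
  choose c hc using fun e => hF2 e (w e)
  refine good_of_equiv (Comp l r (fun e => Fin (sz e)) F w c)
    (comp_noCol l r _ F w c hB1 hF1)
    (comp_vCol l r _ F w c hB1 hB2 hB3 (fun e x y hx hy h => hc e x y hx hy h) hF2) _ ?_
    (by omega)
  rw [Fintype.card_sum, Fintype.card_fin, Fintype.card_sigma]
  congr 1
  apply Finset.sum_congr rfl
  intro e _
  rw [Fintype.card_subtype_compl, Fintype.card_fin, Fintype.card_subtype_eq]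

/-! ### The two bases -/

def l4 : Fin 6 → Fin 4 := ![0, 0, 0, 1, 1, 2]

def r4 : Fin 6 → Fin 4 := ![1, 2, 3, 2, 3, 3]

theorem k4_1 : ∀ φ : Fin 4 → Fin 3, ∃ e, φ (l4 e) = φ (r4 e) := by
  decide +kernel

theorem k4_2 : ∀ e, ∃ φ : Fin 4 → Fin 3, ∀ e', e' ≠ e → φ (l4 e') ≠ φ (r4 e') := by
  decide +kernel

theorem k4_3 : ∀ i, ∃ e, l4 e = i ∨ r4 e = i := by
  decide

def l7 : Fin 12 → Fin 7 := ![0, 0, 0, 1, 1, 2, 2, 3, 3, 4, 4, 5]

def r7 : Fin 12 → Fin 7 := ![1, 2, 4, 3, 6, 3, 5, 5, 6, 5, 6, 6]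

theorem b7_1 : ∀ φ : Fin 7 → Fin 3, ∃ e, φ (l7 e) = φ (r7 e) := by
  decide +kernel

theorem b7_2 : ∀ e, ∃ φ : Fin 7 → Fin 3, ∀ e', e' ≠ e → φ (l7 e') ≠ φ (r7 e') := by
  decide +kernel

theorem b7_3 : ∀ i, ∃ e, l7 e = i ∨ r7 e = i := by
  decide

theorem good60 : Good 60 := by
  refine ⟨by norm_num, Helper201.Dirac.G60, ?_, ?_⟩
  · intro a b f
    by_contra hcon
    push Not at hcon
    by_cases hab : Helper201.Dirac.G60.Adj a b
    · exact Helper201.Dirac.no_col a b hab f hcon
    · apply Helper201.Dirac.not_colorable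
      refine ⟨Coloring.mk f ?_⟩
      intro x y hxy
      refine hcon x y hxy ?_
      intro h
      rw [Sym2.eq_iff] at h
      rcases h with ⟨h1, h2⟩ | ⟨h1, h2⟩
      · exact hab (by rw [← h1, ← h2]; exact hxy)
      · exact hab (by rw [← h1, ← h2]; exact hxy.symm)
  · intro v
    obtain ⟨C⟩ := Helper201.Dirac.induce_colorable v
    refine ⟨fun x => if h : x ≠ v then C ⟨x, h⟩ else 0, ?_⟩
    intro x y hx hy h
    simp only [dif_pos hx, dif_pos hy]
    apply C.valid
    exact h

theorem good_298 {n : ℕ} (h : Good n) : Good (n + 298) := by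
  have := good_comp (by norm_num) l4 r4 k4_1 k4_2 k4_3 (Fin.cons n (fun _ : Fin 5 => 60))
    (by
      intro e
      refine Fin.cases ?_ ?_ e
      · exact h
      · intro i
        exact good60)
  rw [Fin.sum_univ_succ] at this
  simp only [Fin.cons_zero, Fin.cons_succ, Finset.sum_const, Finset.card_univ, Fintype.card_fin,
    smul_eq_mul] at this
  have e : 4 + (n - 1 + 5 * (60 - 1)) = n + 298 := by
    have := h.1
    omega
  rwa [e] at this

theorem good_655 {n : ℕ} (h : Good n) : Good (n + 655) := by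
  have := good_comp (by norm_num) l7 r7 b7_1 b7_2 b7_3 (Fin.cons n (fun _ : Fin 11 => 60))
    (by
      intro e
      refine Fin.cases ?_ ?_ e
      · exact h
      · intro i
        exact good60)
  rw [Fin.sum_univ_succ] at this
  simp only [Fin.cons_zero, Fin.cons_succ, Finset.sum_const, Finset.card_univ, Fintype.card_fin,
    smul_eq_mul] at this
  have e : 7 + (n - 1 + 11 * (60 - 1)) = n + 655 := by
    have := h.1
    omega
  rwa [e] at this

theorem good_large {n : ℕ} (hn : 200000 ≤ n) : Good n := by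
  have h1 : ∀ i : ℕ, Good (60 + 298 * i) := by
    intro i
    induction i with
    | zero => exact good60
    | succ i ih =>
      have := good_298 ih
      rwa [show 60 + 298 * i + 298 = 60 + 298 * (i + 1) by ring] at this
  have h2 : ∀ j i : ℕ, Good (60 + 298 * i + 655 * j) := by
    intro j
    induction j with
    | zero => intro i; exact h1 i
    | succ j ih =>
      intro i
      have := good_655 (ih i)
      rwa [show 60 + 298 * i + 655 * j + 655 = 60 + 298 * i + 655 * (j + 1) by ring] at this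
  obtain ⟨i, j, hij⟩ : ∃ i j : ℕ, 60 + 298 * i + 655 * j = n := by
    refine ⟨((n - 60) - 655 * ((197 * (n - 60)) % 298)) / 298, (197 * (n - 60)) % 298, ?_⟩
    omega
  rw [← hij]
  exact h2 j i

theorem chi_eq {V : Type} [Nonempty V] (G : SimpleGraph V) (h1 : NoCol G) (h2 : VCol G) :
    G.chromaticNumber = 4 ∧ (∀ v : V, (G.induce {w | w ≠ v}).chromaticNumber = 3) ∧
      ∀ e ∈ G.edgeSet, (G.deleteEdges {e}).chromaticNumber = 4 := by
  classical
  have hn : ∀ e : Sym2 V, ¬ (G.deleteEdges {e}).Colorable 3 := by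
    intro e ⟨C⟩
    induction e with
    | _ a b =>
    obtain ⟨x, y, hxy, hne, hf⟩ := h1 a b C
    exact C.valid (show (G.deleteEdges {s(a, b)}).Adj x y by
      rw [deleteEdges_adj]
      exact ⟨hxy, hne⟩) hf
  have hn0 : ¬ G.Colorable 3 := by
    intro h
    obtain ⟨v⟩ : Nonempty V := inferInstance
    exact hn s(v, v) (h.mono_left (deleteEdges_le _))
  have hc : ∀ v : V, (G.induce {w | w ≠ v}).Colorable 3 := by
    intro v
    obtain ⟨f, hf⟩ := h2 v
    exact ⟨Coloring.mk (fun w => f w) (fun {x y} h => hf x y x.2 y.2 h)⟩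
  have hext : ∀ (v : V) (k : ℕ), (G.induce {w | w ≠ v}).Colorable k → G.Colorable (k + 1) := by
    rintro v k ⟨C⟩
    refine ⟨Coloring.mk (fun w => if h : w ≠ v then (C ⟨w, h⟩).castSucc else Fin.last k) ?_⟩
    intro x y hxy
    by_cases hx : x = v
    · have hy : y ≠ v := fun h => hxy.ne (hx.trans h.symm)
      simp only [hx, hy, ne_eq, not_true_eq_false, not_false_eq_true, dite_true, dite_false]
      exact (Fin.castSucc_lt_last _).ne'
    · by_cases hy : y = v
      · simp only [hx, hy, ne_eq, not_true_eq_false, not_false_eq_true, dite_true, dite_false]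
        exact (Fin.castSucc_lt_last _).ne
      · simp only [hx, hy, ne_eq, not_false_eq_true, dite_true]
        intro h
        exact C.valid (show (G.induce {w | w ≠ v}).Adj ⟨x, hx⟩ ⟨y, hy⟩ from hxy)
          (Fin.castSucc_injective _ h)
  have h4 : G.Colorable 4 := by
    obtain ⟨v⟩ : Nonempty V := inferInstance
    exact hext v 3 (hc v)
  refine ⟨?_, ?_, ?_⟩
  · have := (chromaticNumber_eq_iff_colorable_not_colorable (G := G) (n := 3)).2 ⟨h4, hn0⟩
    rw [this]
    rfl
  · intro v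
    have h2' : ¬ (G.induce {w | w ≠ v}).Colorable 2 := fun h => hn0 (hext v 2 h)
    have := (chromaticNumber_eq_iff_colorable_not_colorable
      (G := G.induce {w | w ≠ v}) (n := 2)).2 ⟨hc v, h2'⟩
    rw [this]
    rfl
  · intro e _
    have := (chromaticNumber_eq_iff_colorable_not_colorable
      (G := G.deleteEdges {e}) (n := 3)).2 ⟨h4.mono_left (deleteEdges_le _), hn e⟩
    rw [this]
    rfl

end Pool.Agent.H166R2.DiracInf
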